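import Pool.Agent.Helper70.TW.Goals

/-!
# Packet TW-TPMS (MP_c7dfba_nt)
-/

namespace Pool.Agent.Helper46.TW

open MvPolynomial Pool.Agent.Helper70.BU Pool.Agent.Helper70.TW

universe u

lemma bn_prod {ι κ : Type} [Fintype ι] [DecidableEq κ] (b : ι → κ) (s : ℕ) (k : κ) :
    bn (fun x : ι × Fin s => b x.1) k = bn b k * s := by
  unfold bn
  have h : (Finset.univ.filter (fun x : ι × Fin s => b x.1 = k)) =
      (Finset.univ.filter (fun i => b i = k)) ×ˢ (Finset.univ : Finset (Fin s)) := by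
    ext x
    simp
  rw [h, Finset.card_product, Finset.card_univ, Fintype.card_fin]

theorem tpms : SIMS.{u} → TPMS.{u} := by
  intro hS F K _ _ _ t ht hx j hT ι κ Λ _ _ _ _ _ b α β hne hb
  refine hS F K t ht hx ι κ Λ b α β fun c => ?_
  refine ⟨(c + 1) * ∑ l, (∑ k', (α l k' + β l k')) ^ j, ?_⟩
  set s := (c + 1) * ∑ l, (∑ k', (α l k' + β l k')) ^ j with hs
  refine hT _ κ _ _ _ _ (fun l => hne l.1) fun k => ?_
  rw [bn_prod, Fintype.sum_sigma]
  have h1 : ∀ l : Λ, ∑ _y : Fin ((∑ k, (α l k + β l k)) * s + c + 1),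
      (∑ k', (α l k' + β l k')) ^ j =
      s * (∑ k', (α l k' + β l k')) ^ (j + 1) + (c + 1) * (∑ k', (α l k' + β l k')) ^ j := by
    intro l
    rw [Finset.sum_const, Finset.card_univ, Fintype.card_fin, smul_eq_mul, pow_succ]
    ring
  have h2 : (∑ l : Λ, ∑ _y : Fin ((∑ k, (α l k + β l k)) * s + c + 1),
      (∑ k', (α l k' + β l k')) ^ j) =
      s * (∑ l, (∑ k', (α l k' + β l k')) ^ (j + 1) + 1) := by
    rw [Finset.sum_congr rfl fun l _ => h1 l, Finset.sum_add_distrib, ← Finset.mul_sum,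
      ← Finset.mul_sum, ← hs]
    ring
  have h3 := hb k
  refine lt_of_eq_of_lt h2 ?_
  have h4 : s * (∑ l, (∑ k', (α l k' + β l k')) ^ (j + 1) + 1) ≤ s * bn b k :=
    Nat.mul_le_mul_left _ h3
  have h5 : 0 < bn b k := lt_of_le_of_lt (Nat.zero_le _) h3
  calc s * (∑ l, (∑ k', (α l k' + β l k')) ^ (j + 1) + 1) ≤ s * bn b k := h4
    _ < bn b k * (s + 1) := by rw [Nat.mul_comm, Nat.mul_succ]; omega

end Pool.Agent.Helper46.TW
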